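import Pool.Agent.H337R3.Sid7

set_option autoImplicit false

namespace Pool.Agent.Results.MP_5efb50_an.BoundedOrder

universe u

/-- `Λ` is a Sidon set of characters of the compact abelian group `G`: some constant `C` has
`∑ |a_γ| ≤ C sup_x |∑ a_γ γ(x)|` for all finitely supported families of complex coefficients. -/
def Sidon {G : Type u} [CommGroup G] [TopologicalSpace G] (Λ : Set (PontryaginDual G)) : Prop :=
  ∃ C : ℝ, ∀ (A : Finset (PontryaginDual G)) (a : PontryaginDual G → ℂ),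
    (A : Set (PontryaginDual G)) ⊆ Λ →
      ∑ γ ∈ A, ‖a γ‖ ≤ C * ⨆ x : G, ‖∑ γ ∈ A, a γ * ((γ x : Circle) : ℂ)‖

/-- `Λ` is quasi-independent: a relation `∏_{γ ∈ A} γ ^ ξ_γ = 1` with `A ⊆ Λ` finite and
`ξ_γ ∈ {-1, 0, 1}` is trivial (the dual group is written multiplicatively here). -/
def QuasiIndependent {G : Type u} [CommGroup G] [TopologicalSpace G]
    (Λ : Set (PontryaginDual G)) : Prop :=
  ∀ A : Finset (PontryaginDual G), (A : Set (PontryaginDual G)) ⊆ Λ → ∀ ξ : PontryaginDual G → ℤ,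
    (∀ γ ∈ A, ξ γ = -1 ∨ ξ γ = 0 ∨ ξ γ = 1) → ∏ γ ∈ A, γ ^ ξ γ = 1 → ∀ γ ∈ A, ξ γ = 0

/-- A Sidon set of nontrivial characters of bounded order of a compact abelian group is a finite
union of quasi-independent sets. -/
theorem result (G : Type u) [CommGroup G] [TopologicalSpace G] [IsTopologicalGroup G]
    [CompactSpace G] [T2Space G] (Λ : Set (PontryaginDual G)) (h1 : (1 : PontryaginDual G) ∉ Λ)
    (n : ℕ) (hn : 0 < n) (hord : ∀ γ ∈ Λ, γ ^ n = 1) (hΛ : Sidon Λ) :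
    ∃ (k : ℕ) (Q : Fin k → Set (PontryaginDual G)),
      (∀ i, QuasiIndependent (Q i)) ∧ Λ = ⋃ i, Q i := by
  classical
  obtain ⟨C, hC⟩ := hΛ
  let Λ' : Set (Additive (PontryaginDual G)) := Λ
  have hexp : ∀ x ∈ Λ', n • x = 0 := fun x hx => hord x hx
  obtain ⟨K, hK⟩ := Pool.Agent.H337R3.Sid.small_of_sidon (Γ := Additive (PontryaginDual G)) (X := G)
    (fun γ x => (((Additive.toMul γ) x : Circle) : ℂ))
    (fun x => by simp) (fun γ δ x => by
      rw [toMul_add, ← Circle.coe_mul]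
      rfl) Λ'
    (fun D hD => Pool.Agent.H337R3.Sid.closure_finite n hn D
      (fun x hx => hexp x (hD (Finset.mem_coe.mpr hx)))) h1 C
    (fun A a hA => hC A a hA)
  obtain ⟨Q, hQ, hΛ⟩ := Pool.Agent.H337R3.Sid.finite_union (Γ := Additive (PontryaginDual G))
    n.primeFactorsList (fun q hq => Nat.prime_of_mem_primeFactorsList hq) K Λ'
    (by rw [Nat.prod_primeFactorsList hn.ne']; exact hexp) hK
  refine ⟨_, Q, ?_, hΛ⟩
  intro i A hA ξ hξ hrel
  refine hQ i A hA ξ hξ ?_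
  have h2 : ∑ x ∈ A, ξ x • (Additive.ofMul x) = Additive.ofMul (∏ γ ∈ A, γ ^ ξ γ) := by
    rw [ofMul_prod]
    rfl
  rw [hrel] at h2
  exact h2

end Pool.Agent.Results.MP_5efb50_an.BoundedOrder
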